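import Pool.Agent.Helper17.Strange.Embed

/-!
# An ample line bundle mapping to the tangent bundle of a quadric threefold in characteristic two

Let `k` be a field of characteristic two and let `X ⊆ ℙ⁴` be the smooth quadric threefold
`ω² = x₀x₁ + x₂x₃`. As `∂/∂ω` kills `ω² - x₀x₁ - x₂x₃` in characteristic two, it is a derivation of
degree `-1` of the homogeneous coordinate ring of `X`, and it gives a nonzero morphism from the ample
line bundle `𝒪_X(1)` to the tangent sheaf of `X`. The threefold `X` is not isomorphic to `ℙ³`.
-/

set_option autoImplicit false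

open AlgebraicGeometry CategoryTheory

universe u

namespace Pool.Agent.Results.MP_63fcef_ag.StrangeQuadric

open Pool.Agent.Helper17.Strange

attribute [local instance] MvPolynomial.gradedAlgebra

/-- The projective space of dimension `n` over the field `k`: `Proj k[x₀, …, xₙ]`. -/
noncomputable def ProjectiveSpace (k : Type u) [Field k] (n : ℕ) : Scheme.{u} :=
  Proj (MvPolynomial.homogeneousSubmodule (Fin (n + 1)) k)

/-- The structure morphism of the projective space of dimension `n` over the field `k`. -/
noncomputable def ProjectiveSpace.structureMorphism (k : Type u) [Field k] (n : ℕ) :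
    ProjectiveSpace k n ⟶ Spec (.of k) :=
  strMor (MvPolynomial.homogeneousSubmodule (Fin (n + 1)) k)

/-- Over every field `k` of characteristic two there is an integral, projective scheme `X` over `k`,
smooth over `k` of relative dimension three and not isomorphic to `ℙ³` over `k`, with an ample line
bundle `E` and a nonzero morphism from `E` to the tangent sheaf of `X`. -/
theorem result (k : Type u) [Field k] [CharP k 2] :
    ∃ (X : Scheme.{u}) (s : X ⟶ Spec (.of k)),
      (∃ i : X ⟶ ProjectiveSpace k 4,
        IsClosedImmersion i ∧ i ≫ ProjectiveSpace.structureMorphism k 4 = s) ∧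
      IsProper s ∧ IsIntegral X ∧ SmoothOfRelativeDimension 3 s ∧
      (∃ E : X.Modules, IsAmpleLineBundle E ∧ ∃ φ : E ⟶ tangentSheaf s, φ ≠ 0) ∧
      ¬ ∃ e : X ≅ ProjectiveSpace k 3, e.hom ≫ ProjectiveSpace.structureMorphism k 3 = s :=
  ⟨Proj (gr k), strMor (gr k),
    ⟨quadricEmb k, isClosedImmersion_quadricEmb k, quadricEmb_strMor k⟩,
    proper_quadric k, integral_quadric k, smooth_quadric,
    ⟨tw (gr k), ample_quadric k, exists_morphism k⟩,
    fun ⟨e, he⟩ => not_iso e he⟩

end Pool.Agent.Results.MP_63fcef_ag.StrangeQuadric
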